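import Mathlib
import Pool.Agent.Q88.MR.Fin
import Pool.Agent.Q88.MR.All

/-!
# MP_a3b629_pr: hitting probabilities of Minkowski sums of random walk ranges

The ratio of the probability that the translate by `z` of the Minkowski sum of the ranges of `N`
independent simple random walks on `ℤ^d`, `d > 2N`, hits a finite set `A` and of the `N`-fold
convolution of the Green function at `z` converges as `z` tends to infinity.
-/

open MeasureTheory ProbabilityTheory Filter
open scoped Topology ENNReal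

namespace Pool.Agent.Results.MP_a3b629_pr.HittingMinkowskiSums

/-- `S 0, …, S (N - 1)` are `N` independent simple random walks on `ℤ^d` started at the origin:
all the increments are independent, and each of them is uniform on the `2d` vectors
`±(the unit vectors)`. -/
structure IsWalks {N d : ℕ} {Ω : Type*} [MeasurableSpace Ω] (P : Measure Ω)
    (S : Fin N → ℕ → Ω → Fin d → ℤ) : Prop where
  start : ∀ i ω, S i 0 ω = 0
  meas : ∀ i n, Measurable (S i n)
  law : ∀ i n (j : Fin d),
    P {ω | S i (n + 1) ω - S i n ω = Pi.single j 1} = (2 * d : ℝ≥0∞)⁻¹ ∧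
    P {ω | S i (n + 1) ω - S i n ω = -Pi.single j 1} = (2 * d : ℝ≥0∞)⁻¹
  indep : iIndepFun (fun (p : Fin N × ℕ) ω => S p.1 (p.2 + 1) ω - S p.1 p.2 ω) P

/-- The Minkowski sum of the ranges of the `N` walks. -/
def minkowskiSum {N d : ℕ} {Ω : Type*} (S : Fin N → ℕ → Ω → Fin d → ℤ) (ω : Ω) :
    Set (Fin d → ℤ) :=
  {x | ∃ r : Fin N → Fin d → ℤ, (∀ i, r i ∈ Set.range fun n => S i n ω) ∧ ∑ i, r i = x}

/-- `p_A(z)`: the probability that the Minkowski sum of the ranges, translated by `z`,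
meets `A`. -/
noncomputable def hitProb {N d : ℕ} {Ω : Type*} [MeasurableSpace Ω] (P : Measure Ω)
    (S : Fin N → ℕ → Ω → Fin d → ℤ) (A : Finset (Fin d → ℤ)) (z : Fin d → ℤ) : ℝ :=
  (P {ω | (((fun x => z + x) '' minkowskiSum S ω) ∩ (A : Set (Fin d → ℤ))).Nonempty}).toReal

/-- The Green function of the walk `X`: the expected number of visits to `x`. -/
noncomputable def green {d : ℕ} {Ω : Type*} [MeasurableSpace Ω] (P : Measure Ω)
    (X : ℕ → Ω → Fin d → ℤ) (x : Fin d → ℤ) : ℝ≥0∞ := ∑' n, P {ω | X n ω = x}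

/-- The `k`-fold convolution of a function with itself. -/
noncomputable def conv {d : ℕ} (g : (Fin d → ℤ) → ℝ≥0∞) : ℕ → (Fin d → ℤ) → ℝ≥0∞
  | 0, x => if x = 0 then 1 else 0
  | k + 1, x => ∑' y, g y * conv g k (x - y)

/-- **Main result.** Let `N ≥ 1`, `d > 2N`, let `A` be a finite nonempty subset of `ℤ^d` and let
`S i`, `i < N`, be independent simple random walks on `ℤ^d` started at the origin, with Green
function `G` (the same for all `i`) and `N`-fold convolution `G_N`, which is positive and finite.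
Then `p_A(z) / G_N(z)` converges as `z` tends to infinity. -/
theorem result {N d : ℕ} (hN : 1 ≤ N) (hd : 2 * N < d) (A : Finset (Fin d → ℤ))
    (hA : A.Nonempty) {Ω : Type*} [MeasurableSpace Ω] (P : Measure Ω) [IsProbabilityMeasure P]
    (S : Fin N → ℕ → Ω → Fin d → ℤ) (hS : IsWalks P S) :
    ∃ L : ℝ, ∀ i : Fin N,
      (∀ z, 0 < conv (green P (S i)) N z ∧ conv (green P (S i)) N z < ⊤) ∧
      Tendsto (fun z : Fin d → ℤ => hitProb P S A z / (conv (green P (S i)) N z).toReal)
        cofinite (𝓝 L) := by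
  have hW : Pool.Agent.Q88.MR.Walks P S := by
    refine ⟨hS.start, hS.meas, fun i n s => ?_, hS.indep⟩
    obtain ⟨j, b⟩ := s
    cases b
    · simpa [Pool.Agent.Q88.MR.vec] using (hS.law i n j).2
    · simpa [Pool.Agent.Q88.MR.vec] using (hS.law i n j).1
  have e : ∀ (g : (Fin d → ℤ) → ℝ≥0∞) (k : ℕ) (x : Fin d → ℤ),
      Pool.Agent.Q88.MR.cv g k x = conv g k x := by
    intro g k
    induction k with
    | zero => intro x; rfl
    | succ k ih => intro x; simp only [Pool.Agent.Q88.MR.cv, conv, ih]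
  have e2 : ∀ z ω, (((fun x => z + x) '' minkowskiSum S ω) ∩ (A : Set (Fin d → ℤ))).Nonempty ↔
      ∃ n : Fin N → ℕ, z + ∑ i, S i (n i) ω ∈ A := by
    intro z ω
    constructor
    · rintro ⟨_, ⟨x, ⟨r, hr, rfl⟩, rfl⟩, hx⟩
      choose n hn using hr
      refine ⟨n, ?_⟩
      simpa only [hn, Finset.mem_coe] using hx
    · rintro ⟨n, hn⟩
      exact ⟨_, ⟨_, ⟨fun i => S i (n i) ω, fun i => ⟨n i, rfl⟩, rfl⟩, rfl⟩, hn⟩
  obtain ⟨L, hL⟩ := Pool.Agent.Q88.MR.final Pool.Agent.Q88.MR.a_LAW Pool.Agent.Q88.MR.a_CV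
    Pool.Agent.Q88.MR.a_UP Pool.Agent.Q88.MR.a_LOW Pool.Agent.Q88.MR.a_FIN N d hN hd A hA Ω P S hW
  refine ⟨L, fun i => ?_⟩
  have h := hL i
  simp only [e] at h
  refine ⟨h.1, ?_⟩
  have h2 := h.2
  simp only [hitProb, e2]
  exact h2

end Pool.Agent.Results.MP_a3b629_pr.HittingMinkowskiSums
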